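import Pool.Agent.Helper68.TG.Goals
import Pool.Agent.Helper92.UQ.Goals

/-!
# TG-FLAT-DRV (MP_a41896_nt): a derivation with prescribed values on a hypersurface

The family `X_i`, `i ≠ a`, is algebraically independent over `κ`; extend its range to a transcendence basis of `L` over `κ` and use DERF.
The value at `X a` is determined by the chain rule applied to `aeval X G = 0`.
-/

set_option autoImplicit false

open MvPolynomial

namespace Pool.Agent.Helper34.TG.DRV

/-- the chain rule -/
theorem chain {K F σ : Type} [Field K] [Field F] [Algebra K F] [DecidableEq σ] [Fintype σ]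
    (D : Derivation K F F) (x : σ → F) (p : MvPolynomial σ K) :
    D (aeval x p) = ∑ k, aeval x (pderiv k p) * D (x k) := by
  induction p using MvPolynomial.induction_on with
  | C a => simp
  | add p q hp hq =>
    simp only [map_add, hp, hq, add_mul, Finset.sum_add_distrib]
  | mul_X p i hp =>
    have h1 : ∀ k, aeval x (pderiv k (p * X i)) * D (x k) =
        x i * (aeval x (pderiv k p) * D (x k)) + (if k = i then aeval x p * D (x k) else 0) := by
      intro k
      rw [Derivation.leibniz]
      simp only [smul_eq_mul, map_add, map_mul, aeval_X]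
      by_cases hk : k = i
      · subst hk
        rw [pderiv_X_self, map_one, if_pos rfl]
        ring
      · rw [pderiv_X_of_ne (Ne.symm hk), map_zero, if_neg hk]
        ring
    rw [Finset.sum_congr rfl fun k _ => h1 k, Finset.sum_add_distrib, ← Finset.mul_sum, ← hp,
      Finset.sum_ite_eq' Finset.univ i, if_pos (Finset.mem_univ i)]
    simp only [map_mul, aeval_X, Derivation.leibniz, smul_eq_mul]
    ring

/-- a derivation with prescribed values on an algebraically independent family -/
theorem der_ind (h : Pool.Agent.Helper92.UQ.DERF) {κ L ι : Type} [Field κ] [CharZero κ]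
    [Field L] [Algebra κ L] (y w : ι → L) (hy : AlgebraicIndependent κ y) :
    ∃ D : Derivation κ L L, ∀ i, D (y i) = w i := by
  classical
  have hinj : Function.Injective y := hy.injective
  have hind : AlgebraicIndepOn κ id (Set.range y) := hy.to_subtype_range
  obtain ⟨u, hsu, hu⟩ := exists_isTranscendenceBasis_superset hind
  obtain ⟨D, hD⟩ := h κ L u ((↑) : u → L)
    (fun b => if hb : ∃ i, y i = (b : L) then w hb.choose else 0) hu
  refine ⟨D, fun i => ?_⟩
  have hiu : y i ∈ u := hsu ⟨i, rfl⟩
  have h1 := hD ⟨y i, hiu⟩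
  have hb : ∃ j, y j = ((⟨y i, hiu⟩ : u) : L) := ⟨i, rfl⟩
  have h2 : hb.choose = i := hinj hb.choose_spec
  rw [dif_pos hb, h2] at h1
  exact h1

theorem t_DRV (h : Pool.Agent.Helper92.UQ.DERF) : Pool.Agent.Helper68.TG.DRV := by
  intro κ L _ _ _ _ σ _ _ a X v G hind h0 hne hv
  obtain ⟨D, hD⟩ := der_ind h (fun i : {i : σ // i ≠ a} => X i)
    (fun i : {i : σ // i ≠ a} => v i) hind
  refine ⟨D, ?_⟩
  have hD' : ∀ i, i ≠ a → D (X i) = v i := fun i hi => hD ⟨i, hi⟩
  have h1 : ∑ i, aeval X (pderiv i G) * D (X i) = 0 := by
    rw [← chain, h0, map_zero]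
  have h2 : ∑ i, aeval X (pderiv i G) * (D (X i) - v i) = 0 := by
    simp only [mul_sub, Finset.sum_sub_distrib, h1, hv, sub_zero]
  rw [Finset.sum_eq_single a] at h2
  · have h3 : D (X a) = v a := by
      rcases mul_eq_zero.1 h2 with h4 | h4
      · exact absurd h4 hne
      · exact sub_eq_zero.1 h4
    intro i
    by_cases hi : i = a
    · subst hi
      exact h3
    · exact hD' i hi
  · intro b _ hb
    rw [hD' b hb, sub_self, mul_zero]
  · intro hc
    exact absurd (Finset.mem_univ a) hc

end Pool.Agent.Helper34.TG.DRV
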